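import Pool.Agent.L7h10.AB.Stm2

/-!
Project AB (helper10), part IMG: size of the image and number of the collisions.
-/

set_option autoImplicit false

namespace Pool.Agent.L7h99.AB

open Pool.Agent.L7h10.AB

theorem s_IMG : S_IMG := by
  classical
  intro D E _ _ φ
  have hs : ∀ e : Set.range φ, ∃ d : D, φ d = e.1 := fun e => e.2
  choose s hs using hs
  let r : D → D := fun d => s ⟨φ d, d, rfl⟩
  have hr : ∀ d, φ (r d) = φ d := fun d => hs ⟨φ d, d, rfl⟩
  let f : D → Set.range φ ⊕ {x : D × D // x.1 ≠ x.2 ∧ φ x.1 = φ x.2} := fun d =>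
    if h : d = r d then Sum.inl ⟨φ d, d, rfl⟩ else Sum.inr ⟨(d, r d), h, (hr d).symm⟩
  have hf : Function.Injective f := by
    intro a b hab
    by_cases ha : a = r a
    · by_cases hb : b = r b
      · simp only [f, dif_pos ha, dif_pos hb] at hab
        have h1 : φ a = φ b := congrArg Subtype.val (Sum.inl.inj hab)
        have h2 : r a = r b := by
          show s ⟨φ a, a, rfl⟩ = s ⟨φ b, b, rfl⟩
          congr 1
          exact Subtype.ext h1
        rw [ha, hb, h2]
      · simp only [f, dif_pos ha, dif_neg hb] at hab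
        exact absurd hab (by simp)
    · by_cases hb : b = r b
      · simp only [f, dif_neg ha, dif_pos hb] at hab
        exact absurd hab (by simp)
      · simp only [f, dif_neg ha, dif_neg hb] at hab
        have h1 := congrArg Subtype.val (Sum.inr.inj hab)
        exact congrArg Prod.fst h1
  calc Nat.card D ≤ Nat.card (Set.range φ ⊕ {x : D × D // x.1 ≠ x.2 ∧ φ x.1 = φ x.2}) :=
        Nat.card_le_card_of_injective f hf
    _ = _ := Nat.card_sum

end Pool.Agent.L7h99.AB
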